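import Pool.Agent.Lib.MP_100a6c_lc.H54.Fails
import Pool.Agent.Lib.MP_100a6c_lc.H36.PD
import Pool.Agent.Lib.MP_100a6c_lc.H36.PE
import Pool.Agent.Lib.MP_100a6c_lc.H90.PC

/-!
# Preservation of the guessing model principle by `κ⁺`-centered forcings

`V` is the universe of sets and `VB B` the Boolean-valued universe `V^B`; all notions are written
once, for both, in `Pool/Agent/Lib/MP_100a6c_lc/Defs.lean`.  `V.gmp κ` is `GMP_{κ⁺⁺}`,
`V.std κ` says that `κ` is regular with `κ^{<κ} = κ` (the standing hypothesis of the principle), and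
`RO P` is the regular open algebra of the poset `P`, so that `P` forces `φ` if and only if the
Boolean value of `φ` in `V^{RO P}` is `⊤`.
-/

universe u

namespace Pool.Agent.Results.MP_100a6c_lc.Preservation

open Pool.Agent.Lib.MP_100a6c_lc

/-- **Theorem.** Let `κ` be regular with `κ^{<κ} = κ` and let `GMP_{κ⁺⁺}` hold.
(1) Every `κ⁺`-centered forcing `P` forces: if `κ` is regular and `κ^{<κ} = κ`, then `GMP_{κ⁺⁺}`.
(2) If `κ = ω`, then every `κ⁺`-centered forcing `P` forces `GMP_{κ⁺⁺}`.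
(3) If `κ` is uncountable, then some nonempty `κ⁺`-centered forcing `P` forces that `GMP_{κ⁺⁺}`
fails (`P` adds `κ⁺⁺` reals and destroys `κ^{<κ} = κ`). -/
theorem result (κ : ZFSet.{u}) (hκ : V.std κ) (h : V.gmp κ) :
    (∀ (P : Type u) [Preorder P], Centered κ P →
      (VB (H1.RO P)).std (BName.check κ) ≤ (VB (H1.RO P)).gmp (BName.check κ)) ∧
    (κ = Ordinal.omega0.toZFSet → ∀ (P : Type u) [Preorder P], Centered κ P →
      (VB (H1.RO P)).gmp (BName.check κ) = ⊤) ∧
    (κ ≠ Ordinal.omega0.toZFSet → ∃ (P : Type u) (_ : Preorder P), Nonempty P ∧ Centered κ P ∧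
      (VB (H1.RO P)).gmp (BName.check κ) = ⊥) := by
  refine ⟨fun P _ hP => H54.preserved κ P hκ h hP, ?_, fun hω =>
    H54.fails H90.PC_holds H36.pd H36.pe κ hκ h hω⟩
  rintro rfl P _ hP
  exact H54.preserved_omega P hκ h hP

end Pool.Agent.Results.MP_100a6c_lc.Preservation
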